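import Mathlib

/-!
# Units of CM orders

If `g ∈ ℤ[X]` is monic with CM roots, then a power of every unit of `ℤ[X]/(g)` is invariant under
complex conjugation.
-/

set_option autoImplicit false

open Polynomial ComplexConjugate NumberField

namespace Pool.Agent.U188.WG

/-- the conjugation of the roots of `g` is given by a rational polynomial, and there are no real
roots -/
def IsCM (g : ℤ[X]) : Prop :=
  ∃ c : ℚ[X], ∀ α : ℂ, aeval α g = 0 → aeval α c = conj α ∧ α.im ≠ 0

theorem conj_aeval (g : ℤ[X]) (α : ℂ) : aeval (conj α) g = conj (aeval α g) := by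
  rw [aeval_def, aeval_def, Polynomial.hom_eval₂]
  congr 1
  exact RingHom.ext_int _ _

theorem conj_root {g : ℤ[X]} {α : ℂ} (h : aeval α g = 0) : aeval (conj α) g = 0 := by
  rw [conj_aeval, h, map_zero]

theorem unit_cm {g : ℤ[X]} (hg : g.Monic) (hcm : IsCM g) {α : ℂ} (hα : aeval α g = 0) :
    ∃ W : ℕ, 0 < W ∧ ∀ u v a : ℤ[X], u * v = 1 + g * a →
      (aeval α u) ^ W = (aeval (conj α) u) ^ W := by
  obtain ⟨c, hc⟩ := hcm
  have hαZ : IsIntegral ℤ α := ⟨g, hg, hα⟩
  have hαQ : IsIntegral ℚ α := hαZ.tower_top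
  let K : IntermediateField ℚ ℂ := IntermediateField.adjoin ℚ {α}
  have : FiniteDimensional ℚ K := IntermediateField.adjoin.finiteDimensional hαQ
  have : NumberField K := { to_charZero := inferInstance, to_finiteDimensional := inferInstance }
  let γ : K := IntermediateField.AdjoinSimple.gen ℚ α
  have hγ : (γ : ℂ) = α := IntermediateField.AdjoinSimple.coe_gen ℚ α
  let δ : K := aeval γ c
  have hδ : (δ : ℂ) = conj α := by
    have h1 : (algebraMap K ℂ) (aeval γ c) = aeval ((algebraMap K ℂ) γ) c :=
      (Polynomial.aeval_algebraMap_apply ℂ γ c).symm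
    have h2 : (algebraMap K ℂ) γ = α := hγ
    rw [h2, (hc α hα).1] at h1
    exact h1
  have hcoe : ∀ (x : K) (P : ℤ[X]), ((aeval x P : K) : ℂ) = aeval (x : ℂ) P := fun x P =>
    (Polynomial.aeval_algebraMap_apply ℂ x P).symm
  have hinj : ∀ x y : K, (x : ℂ) = y → x = y := fun x y h => Subtype.ext h
  have hγ0 : aeval γ g = 0 := hinj _ _ (by rw [hcoe, hγ, hα]; rfl)
  have hδ0 : aeval δ g = 0 := hinj _ _ (by rw [hcoe, hδ, conj_root hα]; rfl)
  have hγi : IsIntegral ℤ γ := ⟨g, hg, hγ0⟩
  have hδi : IsIntegral ℤ δ := ⟨g, hg, hδ0⟩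
  have hint : ∀ (x : K), IsIntegral ℤ x → ∀ P : ℤ[X], IsIntegral ℤ (aeval x P) := by
    intro x hx P
    rw [aeval_eq_sum_range]
    exact IsIntegral.sum _ fun i _ => (hx.pow i).smul _
  refine ⟨NumberField.Units.torsionOrder K, NumberField.Units.torsionOrder_pos K, ?_⟩
  intro u v a huv
  have e1 : ∀ x : K, aeval x g = 0 → aeval x u * aeval x v = 1 := by
    intro x hx
    rw [← map_mul, huv, map_add, map_one, map_mul, hx, zero_mul, add_zero]
  have e2 : ∀ x : ℂ, aeval x g = 0 → aeval x u * aeval x v = 1 := by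
    intro x hx
    rw [← map_mul, huv, map_add, map_one, map_mul, hx, zero_mul, add_zero]
  let y : (𝓞 K)ˣ :=
    ⟨⟨aeval γ u * aeval δ v, (hint γ hγi u).mul (hint δ hδi v)⟩,
     ⟨aeval γ v * aeval δ u, (hint γ hγi v).mul (hint δ hδi u)⟩,
     by
      apply RingOfIntegers.ext
      change (aeval γ u * aeval δ v) * (aeval γ v * aeval δ u) = 1
      have a1 := e1 γ hγ0
      have a2 := e1 δ hδ0
      linear_combination (aeval δ u * aeval δ v) * a1 + a2,
     by
      apply RingOfIntegers.ext
      change (aeval γ v * aeval δ u) * (aeval γ u * aeval δ v) = 1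
      have a1 := e1 γ hγ0
      have a2 := e1 δ hδ0
      linear_combination (aeval δ u * aeval δ v) * a1 + a2⟩
  have hnorm : ∀ φ : K →+* ℂ, ‖φ (aeval γ u * aeval δ v)‖ = 1 := by
    intro φ
    have hφP : ∀ (x : K) (P : ℤ[X]), φ (aeval x P) = aeval (φ x) P := by
      intro x P
      rw [aeval_def, aeval_def, Polynomial.hom_eval₂]
      congr 1
      exact RingHom.ext_int _ _
    have hφQ : φ δ = aeval (φ γ) c := by
      change φ (aeval γ c) = _
      rw [aeval_def, aeval_def, Polynomial.hom_eval₂]
      congr 1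
      exact Subsingleton.elim _ _
    have hr : aeval (φ γ) g = 0 := by rw [← hφP, hγ0, map_zero]
    rw [map_mul, hφP, hφP, hφQ, (hc _ hr).1, conj_aeval, norm_mul, Complex.norm_conj, ← norm_mul,
      e2 _ hr, norm_one]
  have hy : y ∈ NumberField.Units.torsion K := by
    rw [NumberField.Units.mem_torsion]
    intro w
    rw [← InfinitePlace.norm_embedding_eq]
    exact hnorm _
  have hy2 : y ^ NumberField.Units.torsionOrder K = 1 := by
    have h1 : (⟨y, hy⟩ : NumberField.Units.torsion K) ^ (NumberField.Units.torsionOrder K) = 1 :=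
      pow_card_eq_one'
    exact congrArg Subtype.val h1
  have hy3 : (aeval γ u * aeval δ v) ^ NumberField.Units.torsionOrder K = 1 := by
    have h2 : (algebraMap (𝓞 K) K) ((y : 𝓞 K) ^ NumberField.Units.torsionOrder K) = 1 := by
      rw [← Units.val_pow_eq_pow_val, hy2, Units.val_one, map_one]
    rw [map_pow] at h2
    exact h2
  have hy4 := congrArg (fun t : K => (t : ℂ)) hy3
  have hy5 : (aeval α u * aeval (conj α) v) ^ NumberField.Units.torsionOrder K = 1 := by
    have h1 : (((aeval γ u * aeval δ v : K)) : ℂ) = aeval α u * aeval (conj α) v := by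
      change ((aeval γ u : K) : ℂ) * ((aeval δ v : K) : ℂ) = _
      rw [hcoe, hcoe, hγ, hδ]
    rw [← h1]
    exact hy4
  have e3 := e2 _ (conj_root hα)
  calc (aeval α u) ^ NumberField.Units.torsionOrder K
      = (aeval α u) ^ NumberField.Units.torsionOrder K *
          (aeval (conj α) u * aeval (conj α) v) ^ NumberField.Units.torsionOrder K := by
        rw [e3, one_pow, mul_one]
    _ = (aeval α u * aeval (conj α) v) ^ NumberField.Units.torsionOrder K *
          (aeval (conj α) u) ^ NumberField.Units.torsionOrder K := by ring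
    _ = (aeval (conj α) u) ^ NumberField.Units.torsionOrder K := by rw [hy5, one_mul]

end Pool.Agent.U188.WG
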