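import Pool.Agent.U188.WG.A
import Pool.Agent.N874.WG.D

/-!
# The limit in the algebraic closure of `ℚ_p`
-/

set_option autoImplicit false

open Polynomial ComplexConjugate Filter Topology

namespace Pool.Agent.U188.WG

open Pool.Agent.N874.WG

variable {p : ℕ} [Fact p.Prime]

/-- `ℤ_p → \bar ℚ_p` -/
noncomputable def emb (p : ℕ) [Fact p.Prime] : ℤ_[p] →+* PadicAlgCl p :=
  (algebraMap ℚ_[p] (PadicAlgCl p)).comp (PadicInt.Coe.ringHom)

theorem norm_emb (x : ℤ_[p]) : ‖emb p x‖ ≤ 1 := by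
  change ‖algebraMap ℚ_[p] (PadicAlgCl p) (x : ℚ_[p])‖ ≤ 1
  have h : ‖algebraMap ℚ_[p] (PadicAlgCl p) (x : ℚ_[p])‖ = ‖(x : ℚ_[p])‖ := by simp
  rw [h]
  exact x.norm_le_one

theorem emb_inj : Function.Injective (emb p) := by
  intro x y h
  have h1 := (algebraMap ℚ_[p] (PadicAlgCl p)).injective h
  exact PadicInt.ext h1

theorem norm_int {β : PadicAlgCl p} (hβ : IsIntegral ℤ β) : ‖β‖ ≤ 1 := by
  have h1 : IsIntegral (Valued.v (R := PadicAlgCl p)).integer β := hβ.tower_top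
  have h2 := (Valuation.integer.integers (Valued.v (R := PadicAlgCl p))).mem_of_integral h1
  rw [Valuation.mem_integer_iff] at h2
  have h3 : ((Valued.v β : NNReal) : ℝ) ≤ 1 := by exact_mod_cast h2
  rwa [PadicAlgCl.valuation_coe] at h3

theorem norm_eval {β : PadicAlgCl p} (hβ : ‖β‖ ≤ 1) (c : ℤ_[p][X]) :
    ‖eval₂ (emb p) β c‖ ≤ 1 := by
  rw [eval₂_eq_sum_range]
  refine IsUltrametricDist.norm_sum_le_of_forall_le_of_nonneg zero_le_one fun i _ => ?_
  rw [norm_mul, norm_pow]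
  exact mul_le_one₀ (norm_emb _) (pow_nonneg (norm_nonneg _) _) (pow_le_one₀ (norm_nonneg _) hβ)

theorem norm_p : ‖(p : PadicAlgCl p)‖ < 1 := by
  have h := PadicAlgCl.valuation_coe p (p : PadicAlgCl p)
  rw [PadicAlgCl.valuation_p] at h
  rw [← h]
  have hp : (1 : ℝ) < p := by exact_mod_cast (Fact.out : p.Prime).one_lt
  push_cast
  rw [div_lt_one (by linarith)]
  exact hp

/-- the units which approximate `(z - X) ^ n` -/
theorem exists_seq {f : ℤ[X]} {z : ℤ_[p]} {n : ℕ} (h : Approx p f z n) :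
    ∃ u : ℕ → ℤ[X], (∀ k, ∃ v a : ℤ[X], u k * v = 1 + f * a) ∧
      ∀ β : PadicAlgCl p, IsIntegral ℤ β → aeval β f = 0 →
        Tendsto (fun k => aeval β (u k)) atTop (𝓝 ((emb p z - β) ^ n)) := by
  choose u h1 b c h2 using h
  refine ⟨u, h1, fun β hβ hf => ?_⟩
  have key : ∀ k, ‖aeval β (u k) - (emb p z - β) ^ n‖ ≤ ‖(p : PadicAlgCl p)‖ ^ k := by
    intro k
    have h3 := congrArg (eval₂ (emb p) β) (h2 k)
    have hmap : ∀ P : ℤ[X], eval₂ (emb p) β (toP p P) = aeval β P := by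
      intro P
      rw [toP, eval₂_map, aeval_def]
      congr 1
    rw [eval₂_pow, eval₂_sub, eval₂_C, eval₂_X, eval₂_add, eval₂_add, eval₂_mul, eval₂_mul,
      eval₂_C, hmap, hmap, hf, zero_mul, add_zero, map_pow, map_natCast] at h3
    rw [h3, sub_add_cancel_left, norm_neg, norm_mul, norm_pow]
    exact mul_le_of_le_one_right (pow_nonneg (norm_nonneg _) _) (norm_eval (norm_int hβ) _)
  rw [tendsto_iff_norm_sub_tendsto_zero]
  refine squeeze_zero (fun _ => norm_nonneg _) key ?_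
  exact tendsto_pow_atTop_nhds_zero_of_lt_one (norm_nonneg _) norm_p

end Pool.Agent.U188.WG
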