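import Pool.Agent.U188.WG.B

/-!
# Conjugates of a weakly global point of level one
-/

set_option autoImplicit false

open Polynomial ComplexConjugate Filter Topology

namespace Pool.Agent.U188.WG

open Pool.Agent.N874.WG

variable {p : ℕ} [Fact p.Prime]

/-- a complex root of the minimal polynomial satisfies the same equations -/
theorem same {z : ℤ_[p]} (hz : IsIntegral ℤ z) {w : ℂ} (hw : aeval w (minpoly ℤ z) = 0)
    (P : ℤ[X]) : aeval w P = 0 ↔ aeval z P = 0 := by
  have hwi : IsIntegral ℤ w := ⟨minpoly ℤ z, minpoly.monic hz, hw⟩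
  have h1 : minpoly ℤ w ∣ minpoly ℤ z := minpoly.isIntegrallyClosed_dvd hwi hw
  have h2 : minpoly ℤ w = minpoly ℤ z := by
    have h3 := (minpoly.irreducible hz).dvd_iff.1 h1
    rcases h3 with h3 | h3
    · exact absurd h3 (minpoly.not_isUnit ℤ w)
    · exact (eq_of_monic_of_associated (minpoly.monic hwi) (minpoly.monic hz) h3.symm)
  constructor
  · intro h
    obtain ⟨Q, hQ⟩ := minpoly.isIntegrallyClosed_dvd hwi h
    rw [h2] at hQ
    rw [hQ, map_mul, minpoly.aeval, zero_mul]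
  · intro h
    obtain ⟨Q, hQ⟩ := minpoly.isIntegrallyClosed_dvd hz h
    rw [hQ, map_mul, hw, zero_mul]

theorem exists_conj {z : ℤ_[p]} (hz : IsIntegral ℤ z) : ∃ w : ℂ, aeval w (minpoly ℤ z) = 0 := by
  refine IsAlgClosed.exists_aeval_eq_zero ℂ _ ?_
  have h := minpoly.degree_pos hz
  exact h.ne'

/-- an embedding of the algebraic numbers -/
theorem exists_hom {z : ℤ_[p]} (hz : IsIntegral ℤ z) {w : ℂ} (hw : aeval w (minpoly ℤ z) = 0) :
    ∃ (φ : algebraicClosure ℚ ℂ →ₐ[ℚ] PadicAlgCl p) (w' : algebraicClosure ℚ ℂ), (w' : ℂ) = w ∧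
      φ w' = emb p z := by
  have hwi : IsIntegral ℤ w := ⟨minpoly ℤ z, minpoly.monic hz, hw⟩
  have hwq : IsAlgebraic ℚ w := (hwi.tower_top (A := ℚ)).isAlgebraic
  let w' : algebraicClosure ℚ ℂ := ⟨w, mem_algebraicClosure_iff.2 hwq⟩
  have hw' : aeval w' (minpoly ℤ z) = 0 := by
    apply Subtype.ext
    have := (Polynomial.aeval_algebraMap_apply ℂ w' (minpoly ℤ z)).symm
    exact this.trans hw
  have hirr : Irreducible ((minpoly ℤ z).map (algebraMap ℤ ℚ)) :=
    (Polynomial.Monic.irreducible_iff_irreducible_map_fraction_map (K := ℚ) (minpoly.monic hz)).1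
      (minpoly.irreducible hz)
  have hmin : (minpoly ℤ z).map (algebraMap ℤ ℚ) = minpoly ℚ w' := by
    refine minpoly.eq_of_irreducible_of_monic hirr ?_ ((minpoly.monic hz).map _)
    rw [aeval_map_algebraMap]
    exact hw'
  have hroot : aeval (emb p z) (minpoly ℚ w') = 0 := by
    rw [← hmin, aeval_map_algebraMap]
    have h1 : aeval (emb p z) (minpoly ℤ z) = emb p (aeval z (minpoly ℤ z)) := by
      rw [aeval_def, aeval_def, Polynomial.hom_eval₂]
      congr 1
    rw [h1, minpoly.aeval, map_zero]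
  obtain ⟨φ, hφ⟩ := IntermediateField.exists_algHom_of_splits_of_aeval (F := ℚ)
    (E := algebraicClosure ℚ ℂ) (K := PadicAlgCl p) (x := w') (y := emb p z)
    (fun s => ⟨(algebraicClosure.isAlgebraic ℚ ℂ).isAlgebraic s |>.isIntegral, IsAlgClosed.splits _⟩) hroot
  exact ⟨φ, w', rfl, hφ⟩

/-- the main step: the angles are rational -/
theorem angle {g : ℤ[X]} (hg : g.Monic) (hcm : IsCM g) {z : ℤ_[p]} {n : ℕ} (hn : 0 < n)
    (h : Approx p g z n) (hz : IsIntegral ℤ z) {w α : ℂ} (hw : aeval w (minpoly ℤ z) = 0)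
    (hα : aeval α g = 0) : ∃ m : ℕ, 0 < m ∧ (w - α) ^ m = (w - conj α) ^ m := by
  obtain ⟨W, hW, hu⟩ := unit_cm hg hcm hα
  obtain ⟨φ, w', hw', hφ⟩ := exists_hom hz hw
  obtain ⟨u, hu1, hu2⟩ := exists_seq h
  have halg : ∀ x : ℂ, aeval x g = 0 → IsAlgebraic ℚ x := fun x hx =>
    (IsIntegral.tower_top (A := ℚ) (⟨g, hg, hx⟩ : IsIntegral ℤ x)).isAlgebraic
  let α' : algebraicClosure ℚ ℂ := ⟨α, mem_algebraicClosure_iff.2 (halg α hα)⟩
  let α'' : algebraicClosure ℚ ℂ :=
    ⟨conj α, mem_algebraicClosure_iff.2 (halg _ (conj_root hα))⟩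
  have hcoe : ∀ (x : algebraicClosure ℚ ℂ) (P : ℤ[X]),
      ((aeval x P : algebraicClosure ℚ ℂ) : ℂ) = aeval (x : ℂ) P := fun x P =>
    (Polynomial.aeval_algebraMap_apply ℂ x P).symm
  have hφP : ∀ (x : algebraicClosure ℚ ℂ) (P : ℤ[X]), φ (aeval x P) = aeval (φ x) P := by
    intro x P
    rw [aeval_def, aeval_def]
    have := Polynomial.hom_eval₂ P (algebraMap ℤ (algebraicClosure ℚ ℂ)) φ.toRingHom x
    refine this.trans ?_
    congr 1
    exact RingHom.ext_int _ _
  have r1 : aeval α' g = 0 := Subtype.ext ((hcoe _ _).trans hα)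
  have r2 : aeval α'' g = 0 := Subtype.ext ((hcoe _ _).trans (conj_root hα))
  have s1 : aeval (φ α') g = 0 := by rw [← hφP, r1, map_zero]
  have s2 : aeval (φ α'') g = 0 := by rw [← hφP, r2, map_zero]
  have i1 : IsIntegral ℤ (φ α') := ⟨g, hg, s1⟩
  have i2 : IsIntegral ℤ (φ α'') := ⟨g, hg, s2⟩
  have t1 := (hu2 _ i1 s1).pow W
  have t2 := (hu2 _ i2 s2).pow W
  have heq : ∀ k, (aeval (φ α') (u k)) ^ W = (aeval (φ α'') (u k)) ^ W := by
    intro k
    obtain ⟨v, a, hva⟩ := hu1 k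
    have h1 := hu _ v a hva
    have h2 : (aeval α' (u k)) ^ W = (aeval α'' (u k)) ^ W := by
      apply Subtype.ext
      have e1 : (((aeval α' (u k)) ^ W : algebraicClosure ℚ ℂ) : ℂ) = (aeval α (u k)) ^ W := by
        change ((aeval α' (u k) : algebraicClosure ℚ ℂ) : ℂ) ^ W = _
        rw [hcoe]
      have e2 : (((aeval α'' (u k)) ^ W : algebraicClosure ℚ ℂ) : ℂ) =
          (aeval (conj α) (u k)) ^ W := by
        change ((aeval α'' (u k) : algebraicClosure ℚ ℂ) : ℂ) ^ W = _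
        rw [hcoe]
      rw [e1, e2]
      exact h1
    calc (aeval (φ α') (u k)) ^ W = φ ((aeval α' (u k)) ^ W) := by rw [map_pow, hφP]
      _ = φ ((aeval α'' (u k)) ^ W) := by rw [h2]
      _ = (aeval (φ α'') (u k)) ^ W := by rw [map_pow, hφP]
  have t3 : ((emb p z - φ α') ^ n) ^ W = ((emb p z - φ α'') ^ n) ^ W := by
    refine tendsto_nhds_unique t1 ?_
    have : (fun k => (aeval (φ α') (u k)) ^ W) = fun k => (aeval (φ α'') (u k)) ^ W := funext heq
    rw [this]
    exact t2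
  refine ⟨n * W, Nat.mul_pos hn hW, ?_⟩
  rw [← hφ, ← map_sub, ← map_sub, ← map_pow, ← map_pow, ← map_pow, ← map_pow] at t3
  have t4 := φ.toRingHom.injective t3
  have t5 := congrArg (fun x : algebraicClosure ℚ ℂ => (x : ℂ)) t4
  have e : ∀ x : algebraicClosure ℚ ℂ, ((((w' - x) ^ n) ^ W : algebraicClosure ℚ ℂ) : ℂ) =
      ((w - x) ^ n) ^ W := by
    intro x
    rw [← hw']
    rfl
  simp only [e] at t5
  rw [pow_mul, pow_mul]
  exact t5

theorem real_of {w α : ℂ} (hα : α.im ≠ 0) {m : ℕ} (hm : 0 < m)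
    (h : (w - α) ^ m = (w - conj α) ^ m) : w.im = 0 := by
  have h1 : ‖w - α‖ = ‖w - conj α‖ := by
    have h2 := congrArg norm h
    rw [norm_pow, norm_pow] at h2
    exact (pow_left_inj₀ (norm_nonneg _) (norm_nonneg _) hm.ne').1 h2
  have h3 : Complex.normSq (w - α) = Complex.normSq (w - conj α) := by
    rw [Complex.normSq_eq_norm_sq, Complex.normSq_eq_norm_sq, h1]
  rw [Complex.normSq_apply, Complex.normSq_apply] at h3
  simp only [Complex.sub_re, Complex.sub_im, Complex.conj_re, Complex.conj_im] at h3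
  have h4 : w.im * α.im = 0 := by nlinarith
  rcases mul_eq_zero.1 h4 with h5 | h5
  · exact h5
  · exact absurd h5 hα

/-- a weakly global point of level one is an algebraic integer -/
theorem integral {g : ℤ[X]} (hg : g.Monic) (hd : 0 < g.natDegree) {z : ℤ_[p]} {n : ℕ}
    (hn : 0 < n) (h : Approx p g z n) : IsIntegral ℤ z := by
  have h1 := f_pow hg h
  refine ⟨g ^ (2 * n) - 1, ?_, ?_⟩
  · refine (hg.pow _).sub_of_left ?_
    rw [degree_one, ← natDegree_pos_iff_degree_pos, hg.natDegree_pow]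
    exact Nat.mul_pos (by omega) hd
  · rw [eval₂_sub, eval₂_pow, eval₂_one, sub_eq_zero]
    rw [toP, eval_map] at h1
    exact h1

/-- the values are `± 1` -/
theorem value {g : ℤ[X]} (hg : g.Monic) {z : ℤ_[p]} {n : ℕ} (hn : 0 < n)
    (h : Approx p g z n) (hz : IsIntegral ℤ z)
    (hreal : ∀ w : ℂ, aeval w (minpoly ℤ z) = 0 → w.im = 0) :
    aeval z g = 1 ∨ aeval z g = -1 := by
  have h1 := f_pow hg h
  obtain ⟨w, hw⟩ := exists_conj hz
  have h2 : aeval z (g ^ (2 * n) - 1) = 0 := by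
    rw [map_sub, map_pow, map_one, sub_eq_zero]
    rw [toP, eval_map] at h1
    exact h1
  have h3 := (same hz hw _).2 h2
  rw [map_sub, map_pow, map_one, sub_eq_zero] at h3
  have h4 : conj (aeval w g) = aeval w g := by
    rw [← conj_aeval, Complex.conj_eq_iff_im.2 (hreal w hw)]
  obtain ⟨r, hr⟩ := Complex.conj_eq_iff_real.1 h4
  have h5 : aeval w (g ^ 2 - 1) = 0 := by
    rw [map_sub, map_pow, map_one, sub_eq_zero, hr]
    rw [hr] at h3
    have h6 : r ^ (2 * n) = 1 := by exact_mod_cast h3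
    have h7 : r ^ 2 = 1 := by
      rw [pow_mul] at h6
      exact (pow_eq_one_iff_of_nonneg (sq_nonneg r) hn.ne').1 h6
    exact_mod_cast h7
  have h8 := (same hz hw _).1 h5
  rw [map_sub, map_pow, map_one, sub_eq_zero, sq, mul_self_eq_one_iff] at h8
  exact h8

end Pool.Agent.U188.WG
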