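import Pool.Agent.U188.WG.C

/-!
# Cyclotomic components
-/

set_option autoImplicit false

open Polynomial ComplexConjugate Filter Topology

namespace Pool.Agent.U188.WG

open Pool.Agent.N874.WG

theorem root_cyc {m : ℕ} (hm : 0 < m) {α : ℂ} (h : aeval α (cyclotomic m ℤ) = 0) :
    IsPrimitiveRoot α m := by
  have : NeZero (m : ℂ) := ⟨by exact_mod_cast hm.ne'⟩
  rw [← isRoot_cyclotomic_iff (R := ℂ), IsRoot.def, ← map_cyclotomic_int m ℂ, eval_map]
  exact h

theorem cyc_cm {m : ℕ} (hm : 3 ≤ m) : IsCM (cyclotomic m ℤ) := by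
  refine ⟨X ^ (m - 1), fun α hα => ?_⟩
  have hp := root_cyc (by omega) hα
  have hn : ‖α‖ = 1 := Complex.norm_eq_one_of_pow_eq_one hp.pow_eq_one (by omega)
  have h0 : α ≠ 0 := by
    intro h
    rw [h, norm_zero] at hn
    exact zero_ne_one hn
  have hc : conj α = α⁻¹ := by
    rw [Complex.inv_def, Complex.normSq_eq_norm_sq, hn]
    simp
  constructor
  · rw [map_pow, aeval_X, hc]
    have : α ^ (m - 1) * α = 1 := by
      rw [← pow_succ, Nat.sub_add_cancel (by omega : 1 ≤ m), hp.pow_eq_one]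
    exact eq_inv_of_mul_eq_one_left this
  · intro him
    have h1 : conj α = α := Complex.conj_eq_iff_im.2 him
    rw [hc] at h1
    have h2 : α ^ 2 = 1 := by
      rw [sq]
      nth_rewrite 1 [← h1]
      exact inv_mul_cancel₀ h0
    have h3 := hp.dvd_of_pow_eq_one 2 h2
    have := Nat.le_of_dvd (by norm_num) h3
    omega

/-- outside `[-1, 1]` the values are greater than one -/
theorem cyc_big {m : ℕ} (hm : 3 ≤ m) {x : ℝ} (hx : 1 < |x|) :
    1 < ‖aeval (x : ℂ) (cyclotomic m ℤ)‖ := by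
  have hprod : ∀ y : ℂ, ‖aeval y (cyclotomic m ℤ)‖ = ∏ ζ ∈ primitiveRoots m ℂ, ‖y - ζ‖ := by
    intro y
    have h1 : aeval y (cyclotomic m ℤ) = (cyclotomic m ℂ).eval y := by
      rw [← map_cyclotomic_int m ℂ, eval_map]
      rfl
    rw [h1, cyclotomic_eq_prod_X_sub_primitiveRoots
      (Complex.isPrimitiveRoot_exp m (by omega)), eval_prod, norm_prod]
    refine Finset.prod_congr rfl fun ζ _ => ?_
    rw [eval_sub, eval_X, eval_C]
  obtain ⟨e, he, hxe⟩ : ∃ e : ℤ, (e = 1 ∨ e = -1) ∧ 1 < x * e := by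
    rcases le_or_gt 0 x with h | h
    · rw [abs_of_nonneg h] at hx
      exact ⟨1, Or.inl rfl, by push_cast; linarith⟩
    · rw [abs_of_neg h] at hx
      exact ⟨-1, Or.inr rfl, by push_cast; linarith⟩
  have he2 : (e : ℝ) * e = 1 := by
    rcases he with rfl | rfl <;> norm_num
  have hne : ∀ ζ ∈ primitiveRoots m ℂ, ((e : ℤ) : ℂ) - ζ ≠ 0 := by
    intro ζ hζ h
    have hp := (mem_primitiveRoots (by omega : 0 < m)).1 hζ
    have h1 : ζ = ((e : ℤ) : ℂ) := (sub_eq_zero.1 h).symm
    have h2 : ζ ^ 2 = 1 := by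
      rw [h1]
      rcases he with rfl | rfl <;> norm_num
    have h3 := hp.dvd_of_pow_eq_one 2 h2
    have := Nat.le_of_dvd (by norm_num) h3
    omega
  have hlt : ∏ ζ ∈ primitiveRoots m ℂ, ‖((e : ℤ) : ℂ) - ζ‖ <
      ∏ ζ ∈ primitiveRoots m ℂ, ‖(x : ℂ) - ζ‖ := by
    refine Finset.prod_lt_prod_of_nonempty (fun ζ hζ => norm_pos_iff.2 (hne ζ hζ)) ?_ ?_
    · intro ζ hζ
      have hp := (mem_primitiveRoots (by omega : 0 < m)).1 hζ
      have hn : ‖ζ‖ = 1 := Complex.norm_eq_one_of_pow_eq_one hp.pow_eq_one (by omega)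
      have hre : |ζ.re| ≤ 1 := by
        rw [← hn]
        exact Complex.abs_re_le_norm ζ
      have h1 : ζ.re * ζ.re + ζ.im * ζ.im = 1 := by
        have := Complex.normSq_apply ζ
        rw [Complex.normSq_eq_norm_sq, hn] at this
        linarith
      have hre' := abs_le.1 hre
      have h2 : Complex.normSq (((e : ℤ) : ℂ) - ζ) < Complex.normSq ((x : ℂ) - ζ) := by
        rw [Complex.normSq_apply, Complex.normSq_apply]
        simp only [Complex.sub_re, Complex.sub_im, Complex.intCast_re, Complex.intCast_im,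
          Complex.ofReal_re, Complex.ofReal_im]
        rcases he with rfl | rfl
        · push_cast at hxe ⊢
          nlinarith [mul_pos (by linarith : (0 : ℝ) < x - 1)
            (by linarith [hre'.2] : (0 : ℝ) < x + 1 - 2 * ζ.re)]
        · push_cast at hxe ⊢
          nlinarith [mul_pos (by linarith : (0 : ℝ) < -x - 1)
            (by linarith [hre'.1] : (0 : ℝ) < -x + 1 + 2 * ζ.re)]
      rw [Complex.normSq_eq_norm_sq, Complex.normSq_eq_norm_sq] at h2
      exact lt_of_pow_lt_pow_left₀ 2 (norm_nonneg _) h2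
    · exact ⟨_, (mem_primitiveRoots (by omega)).2 (Complex.isPrimitiveRoot_exp m (by omega))⟩
  rw [hprod]
  refine lt_of_le_of_lt ?_ hlt
  rw [← hprod]
  have h5 : aeval ((e : ℤ) : ℂ) (cyclotomic m ℤ) = (((cyclotomic m ℤ).eval e : ℤ) : ℂ) := by
    have := Polynomial.aeval_algebraMap_apply ℂ e (cyclotomic m ℤ)
    simpa using this
  have h6 : (cyclotomic m ℤ).eval e ≠ 0 := by
    intro h
    have h7 : ‖aeval ((e : ℤ) : ℂ) (cyclotomic m ℤ)‖ = 0 := by
      rw [h5, h, Int.cast_zero, norm_zero]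
    rw [hprod, Finset.prod_eq_zero_iff] at h7
    obtain ⟨ζ, hζ, h8⟩ := h7
    exact hne ζ hζ (norm_eq_zero.1 h8)
  rw [h5, Complex.norm_intCast]
  exact_mod_cast Int.one_le_abs h6

/-- totally real algebraic integers with all conjugates in `[-1, 1]` -/
theorem small {w : ℂ} (hw : IsIntegral ℤ w)
    (h : ∀ w' : ℂ, aeval w' (minpoly ℤ w) = 0 → w'.im = 0 ∧ ‖w'‖ ≤ 1) :
    w = 0 ∨ w = 1 ∨ w = -1 := by
  have hwQ : IsIntegral ℚ w := hw.tower_top
  let K : IntermediateField ℚ ℂ := IntermediateField.adjoin ℚ {w}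
  have : FiniteDimensional ℚ K := IntermediateField.adjoin.finiteDimensional hwQ
  have : NumberField K := { to_charZero := inferInstance, to_finiteDimensional := inferInstance }
  let γ : K := IntermediateField.AdjoinSimple.gen ℚ w
  have hγ : (γ : ℂ) = w := IntermediateField.AdjoinSimple.coe_gen ℚ w
  have hcoe : ∀ (x : K) (P : ℤ[X]), ((aeval x P : K) : ℂ) = aeval (x : ℂ) P := fun x P =>
    (Polynomial.aeval_algebraMap_apply ℂ x P).symm
  have h0 : aeval γ (minpoly ℤ w) = 0 := Subtype.ext (by rw [hcoe, hγ, minpoly.aeval]; rfl)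
  by_cases hz : γ = 0
  · left
    rw [← hγ, hz]
    rfl
  right
  obtain ⟨n, hn, hn1⟩ := NumberField.Embeddings.pow_eq_one_of_norm_le_one K ℂ (x := γ) hz
    ⟨minpoly ℤ w, minpoly.monic hw, h0⟩ (by
      intro φ
      refine (h _ ?_).2
      have h1 : φ (aeval γ (minpoly ℤ w)) = aeval (φ γ) (minpoly ℤ w) := by
        rw [aeval_def, aeval_def, Polynomial.hom_eval₂]
        congr 1
        exact RingHom.ext_int _ _
      rw [← h1, h0, map_zero])
  have h2 : w ^ n = 1 := by
    rw [← hγ]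
    exact congrArg (fun t : K => (t : ℂ)) hn1
  have h3 := (h w (minpoly.aeval _ _)).1
  obtain ⟨r, hr⟩ := Complex.conj_eq_iff_real.1 (Complex.conj_eq_iff_im.2 h3)
  rw [hr] at h2 ⊢
  have h4 : r ^ n = 1 := by exact_mod_cast h2
  have h5 : |r| = 1 := by
    have := congrArg abs h4
    rw [abs_pow, abs_one] at this
    exact (pow_eq_one_iff_of_nonneg (abs_nonneg r) hn.ne').1 this
  rcases (abs_eq zero_le_one).1 h5 with h6 | h6
  · left
    rw [h6]
    norm_num
  · right
    rw [h6]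
    norm_num

end Pool.Agent.U188.WG
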