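import Pool.Agent.U188.WG.D

/-!
# Components far from the real line
-/

set_option autoImplicit false

open Polynomial ComplexConjugate

namespace Pool.Agent.U188.WG

theorem one_le_prod {ι : Type} (s : Multiset ι) (f : ι → ℝ) (h : ∀ a ∈ s, 1 ≤ f a) :
    1 ≤ (s.map f).prod := by
  induction s using Multiset.induction with
  | empty => simp
  | cons a s ih =>
    rw [Multiset.map_cons, Multiset.prod_cons]
    have h1 := h a (Multiset.mem_cons_self a s)
    have h2 := ih fun b hb => h b (Multiset.mem_cons_of_mem hb)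
    nlinarith

theorem conj_same {w w' : ℂ} (hw : IsIntegral ℤ w) (h : aeval w' (minpoly ℤ w) = 0) (P : ℤ[X])
    (hP : aeval w P = 0) : aeval w' P = 0 := by
  obtain ⟨Q, hQ⟩ := minpoly.isIntegrallyClosed_dvd hw hP
  rw [hQ, map_mul, h, zero_mul]

theorem far {g : ℤ[X]} (hg : g.Monic) (hd : 0 < g.natDegree)
    (hfar : ∀ α : ℂ, aeval α g = 0 → 1 ≤ |α.im|) {w : ℂ} (hw : IsIntegral ℤ w)
    (hreal : ∀ w' : ℂ, aeval w' (minpoly ℤ w) = 0 → w'.im = 0)
    (hval : aeval w g = 1 ∨ aeval w g = -1) : ∃ x : ℤ, w = x := by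
  obtain ⟨α, hα⟩ : ∃ α : ℂ, aeval α g = 0 := by
    refine IsAlgClosed.exists_aeval_eq_zero ℂ _ ?_
    exact (natDegree_pos_iff_degree_pos.1 hd).ne'
  have key : ∀ w' : ℂ, aeval w' (minpoly ℤ w) = 0 → w' = α.re := by
    intro w' hw'
    have him := hreal w' hw'
    have h1 : ‖aeval w' g‖ = 1 := by
      rcases hval with h | h
      · have := conj_same hw hw' (g - 1) (by rw [map_sub, h, map_one, sub_self])
        rw [map_sub, map_one, sub_eq_zero] at this
        rw [this, norm_one]
      · have := conj_same hw hw' (g + 1) (by rw [map_add, h, map_one, neg_add_cancel])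
        rw [map_add, map_one] at this
        rw [eq_neg_of_add_eq_zero_left this, norm_neg, norm_one]
    have h2 : aeval w' g = ((g.aroots ℂ).map fun a => w' - a).prod :=
      (IsAlgClosed.splits (g.map (algebraMap ℤ ℂ))).aeval_eq_prod_aroots_of_monic hg w'
    have hge : ∀ a ∈ g.aroots ℂ, 1 ≤ ‖w' - a‖ := by
      intro a ha
      have ha' : aeval a g = 0 := (mem_aroots.1 ha).2
      refine (hfar a ha').trans ?_
      have := Complex.abs_im_le_norm (w' - a)
      rw [Complex.sub_im, him, zero_sub, abs_neg] at this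
      exact this
    have hmem : α ∈ g.aroots ℂ := mem_aroots.2 ⟨hg.ne_zero, hα⟩
    have h3 : ‖aeval w' g‖ = ((g.aroots ℂ).map fun a => ‖w' - a‖).prod := by
      rw [h2]
      have := map_multiset_prod (normHom : ℂ →*₀ ℝ) ((g.aroots ℂ).map fun a => w' - a)
      rw [Multiset.map_map] at this
      exact this
    rw [← Multiset.cons_erase hmem, Multiset.map_cons, Multiset.prod_cons, h1] at h3
    have h4 := one_le_prod ((g.aroots ℂ).erase α) (fun a => ‖w' - a‖)
      fun a ha => hge a (Multiset.mem_of_mem_erase ha)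
    have h5 := hge α hmem
    have h6 : ‖w' - α‖ ≤ 1 := by nlinarith
    have h7 : Complex.normSq (w' - α) ≤ 1 := by
      rw [Complex.normSq_eq_norm_sq]
      exact pow_le_one₀ (norm_nonneg _) h6
    rw [Complex.normSq_apply] at h7
    simp only [Complex.sub_re, Complex.sub_im, him, zero_sub] at h7
    have h8 : 1 ≤ α.im * α.im := by
      have := hfar α hα
      rw [← abs_mul_abs_self]
      nlinarith
    have h9 : (w'.re - α.re) * (w'.re - α.re) ≤ 0 := by nlinarith
    have h10 : w'.re - α.re = 0 := mul_self_eq_zero.1 (le_antisymm h9 (mul_self_nonneg _))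
    apply Complex.ext
    · rw [Complex.ofReal_re]
      linarith
    · rw [him, Complex.ofReal_im]
  have hwQ : IsIntegral ℚ w := hw.tower_top
  have hmin : minpoly ℚ w = (minpoly ℤ w).map (algebraMap ℤ ℚ) :=
    minpoly.isIntegrallyClosed_eq_field_fractions' ℚ hw
  have hcard := Polynomial.card_rootSet_eq_natDegree (K := ℂ) (minpoly.irreducible hwQ).separable
    (IsAlgClosed.splits _)
  have hsub : (minpoly ℚ w).rootSet ℂ ⊆ {((α.re : ℝ) : ℂ)} := by
    intro y hy
    rw [mem_rootSet] at hy
    have h1 := hy.2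
    rw [hmin, aeval_map_algebraMap] at h1
    exact key y h1
  have hle : (minpoly ℚ w).natDegree ≤ 1 := by
    rw [← hcard]
    have h1 : Fintype.card ((minpoly ℚ w).rootSet ℂ) ≤ Fintype.card ({((α.re : ℝ) : ℂ)} : Set ℂ) :=
      Set.card_le_card hsub
    simpa using h1
  have hone : (minpoly ℚ w).natDegree = 1 := by
    have := minpoly.natDegree_pos hwQ
    omega
  have hrange : w ∈ (algebraMap ℚ ℂ).range := minpoly.natDegree_eq_one_iff.1 hone
  obtain ⟨q, hq⟩ := hrange
  have hqi : IsIntegral ℤ q := by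
    rw [← hq] at hw
    exact (isIntegral_algebraMap_iff (algebraMap ℚ ℂ).injective).1 hw
  obtain ⟨x, hx⟩ := IsIntegrallyClosed.isIntegral_iff.1 hqi
  refine ⟨x, ?_⟩
  rw [← hq, ← hx]
  simp

end Pool.Agent.U188.WG
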