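import Pool.Agent.U188.WG.E

/-!
# The resultant of `g(x) g(y) - 1` and `h(x) h(y) - 1`
-/

set_option autoImplicit false

open Polynomial ComplexConjugate

namespace Pool.Agent.U188.WG

/-- `g(x) g(y) - 1` -/
noncomputable def dbl (g : ℤ[X]) : ℤ[X][X] := C g * g.map C - 1

/-- the resultant of `g(x) g(y) - 1` and `h(x) h(y) - 1` with respect to `y` -/
noncomputable def Res (g h : ℤ[X]) : ℤ[X] :=
  (dbl g).resultant (dbl h) g.natDegree h.natDegree

theorem dbl_natDegree (g : ℤ[X]) : (dbl g).natDegree ≤ g.natDegree := by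
  unfold dbl
  refine (natDegree_sub_le _ _).trans ?_
  rw [natDegree_one, max_eq_left (Nat.zero_le _)]
  refine (natDegree_C_mul_le _ _).trans ?_
  exact natDegree_map_le

theorem dbl_coeff (g : ℤ[X]) (i : ℕ) :
    (dbl g).coeff i = g * C (g.coeff i) - (if i = 0 then 1 else 0) := by
  unfold dbl
  rw [coeff_sub, coeff_C_mul, coeff_map, coeff_one]

theorem dbl_coeff_le (g : ℤ[X]) (i : ℕ) : ((dbl g).coeff i).natDegree ≤ g.natDegree := by
  rw [dbl_coeff]
  refine (natDegree_sub_le _ _).trans ?_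
  have h1 : (g * C (g.coeff i)).natDegree ≤ g.natDegree := natDegree_mul_C_le _ _
  have h2 : ((if i = 0 then 1 else 0 : ℤ[X])).natDegree = 0 := by
    split_ifs <;> simp
  rw [h2]
  simpa using h1

theorem Res_natDegree (g h : ℤ[X]) : (Res g h).natDegree ≤ 2 * (g.natDegree * h.natDegree) := by
  unfold Res resultant
  rw [Matrix.det_apply]
  refine natDegree_sum_le_of_forall_le _ _ fun σ _ => ?_
  have h0 : ((Equiv.Perm.sign σ : ℤˣ) • ∏ i, (dbl g).sylvester (dbl h) g.natDegree h.natDegree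
      (σ i) i).natDegree ≤ (∏ i, (dbl g).sylvester (dbl h) g.natDegree h.natDegree
      (σ i) i).natDegree := by
    rcases Int.units_eq_one_or (Equiv.Perm.sign σ) with h | h
    · rw [h, one_smul]
    · rw [h, Units.neg_smul, one_smul, natDegree_neg]
  refine h0.trans ((natDegree_prod_le _ _).trans ?_)
  rw [Fin.sum_univ_add]
  have h1 : ∀ j : Fin g.natDegree, ((dbl g).sylvester (dbl h) g.natDegree h.natDegree
      (σ (Fin.castAdd _ j)) (Fin.castAdd _ j)).natDegree ≤ h.natDegree := by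
    intro j
    rw [sylvester, Matrix.of_apply, Fin.addCases_left]
    split_ifs
    · exact dbl_coeff_le h _
    · simp
  have h2 : ∀ j : Fin h.natDegree, ((dbl g).sylvester (dbl h) g.natDegree h.natDegree
      (σ (Fin.natAdd _ j)) (Fin.natAdd _ j)).natDegree ≤ g.natDegree := by
    intro j
    rw [sylvester, Matrix.of_apply, Fin.addCases_right]
    split_ifs
    · exact dbl_coeff_le g _
    · simp
  have h3 := Finset.sum_le_sum fun (j : Fin g.natDegree) (_ : j ∈ Finset.univ) => h1 j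
  have h4 := Finset.sum_le_sum fun (j : Fin h.natDegree) (_ : j ∈ Finset.univ) => h2 j
  rw [Finset.sum_const, Finset.card_univ, Fintype.card_fin, smul_eq_mul] at h3 h4
  calc _ ≤ g.natDegree * h.natDegree + h.natDegree * g.natDegree := add_le_add h3 h4
    _ = 2 * (g.natDegree * h.natDegree) := by ring

theorem Res_ne_zero {g h : ℤ[X]} (hd : 0 < g.natDegree) (hh : h.Monic)
    (hd' : 0 < h.natDegree) (hco : ∀ α : ℂ, aeval α g = 0 → aeval α h ≠ 0) : Res g h ≠ 0 := by
  intro h0
  obtain ⟨α, hα⟩ : ∃ α : ℂ, aeval α g = 0 :=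
    IsAlgClosed.exists_aeval_eq_zero ℂ _ (natDegree_pos_iff_degree_pos.1 hd).ne'
  let φ : ℤ[X] →+* ℂ := (aeval α : ℤ[X] →ₐ[ℤ] ℂ).toRingHom
  have h1 : φ (Res g h) = ((dbl g).map φ).resultant ((dbl h).map φ) g.natDegree h.natDegree := by
    rw [resultant_map_map]
    rfl
  have h2 : (dbl g).map φ = C (-1) := by
    unfold dbl
    rw [Polynomial.map_sub, Polynomial.map_mul, map_C, Polynomial.map_one]
    have : φ g = 0 := hα
    rw [this, C_0, zero_mul, zero_sub, C_neg, C_1]
  have h3 : ((dbl h).map φ).coeff h.natDegree = aeval α h := by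
    rw [coeff_map, dbl_coeff, if_neg hd'.ne', sub_zero, coeff_natDegree, hh.leadingCoeff, C_1,
      mul_one]
    rfl
  rw [h2, resultant_C_left, h3, h0, map_zero] at h1
  have h4 := hco α hα
  have h5 : (-1 : ℂ) ^ (g.natDegree * h.natDegree) * (aeval α h) ^ g.natDegree *
      (-1) ^ h.natDegree ≠ 0 := by
    refine mul_ne_zero (mul_ne_zero ?_ (pow_ne_zero _ h4)) ?_ <;>
      exact pow_ne_zero _ (neg_ne_zero.2 one_ne_zero)
  exact h5 h1.symm

theorem Res_root {g h : ℤ[X]} (hd : 0 < g.natDegree) {w v : ℂ}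
    (h1 : aeval w g * aeval v g = 1) (h2 : aeval w h * aeval v h = 1) :
    aeval w (Res g h) = 0 := by
  obtain ⟨P, Q, -, -, e⟩ := exists_mul_add_mul_eq_C_resultant (m := g.natDegree)
    (n := h.natDegree) (dbl g) (dbl h) (dbl_natDegree g) (dbl_natDegree h) (Or.inl hd.ne')
  let φ : ℤ[X] →+* ℂ := (aeval w : ℤ[X] →ₐ[ℤ] ℂ).toRingHom
  have key : ∀ k : ℤ[X], eval₂ φ v (dbl k) = aeval w k * aeval v k - 1 := by
    intro k
    unfold dbl
    rw [eval₂_sub, eval₂_mul, eval₂_C, eval₂_one, eval₂_map]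
    congr 2
    rw [aeval_def]
    congr 1
    exact RingHom.ext_int _ _
  have h3 := congrArg (eval₂ φ v) e
  rw [eval₂_add, eval₂_mul, eval₂_mul, key, key, h1, h2, sub_self, zero_mul, zero_mul, add_zero,
    eval₂_C] at h3
  exact h3.symm

end Pool.Agent.U188.WG
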