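import Pool.Agent.U188.WG.F

/-!
# Two components besides infinity
-/

set_option autoImplicit false

open Polynomial ComplexConjugate

namespace Pool.Agent.U188.WG

open Pool.Agent.N874.WG

variable {p : ℕ} [Fact p.Prime]

theorem pow_one' {k : ℤ[X]} (hk : k.Monic) {z : ℤ_[p]} {n : ℕ} (h : Approx p k z n)
    (hz : IsIntegral ℤ z) {w : ℂ} (hw : aeval w (minpoly ℤ z) = 0) :
    (aeval w k) ^ (2 * n) = 1 := by
  have h1 := f_pow hk h
  have h2 : aeval z (k ^ (2 * n) - 1) = 0 := by
    rw [map_sub, map_pow, map_one, sub_eq_zero]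
    rw [toP, eval_map] at h1
    exact h1
  have h3 := (same hz hw _).2 h2
  rwa [map_sub, map_pow, map_one, sub_eq_zero] at h3

theorem mul_conj_one {k : ℤ[X]} {w : ℂ} {n : ℕ} (hn : 0 < n) (h : (aeval w k) ^ (2 * n) = 1) :
    aeval w k * aeval (conj w) k = 1 := by
  have h1 : ‖aeval w k‖ = 1 := Complex.norm_eq_one_of_pow_eq_one h (by omega)
  rw [conj_aeval, Complex.mul_conj, Complex.normSq_eq_norm_sq, h1]
  norm_num

theorem root_res {g h : ℤ[X]} (hg : g.Monic) (hh : h.Monic) (hd : 0 < g.natDegree)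
    {z : ℤ_[p]} {n : ℕ} (hn : 0 < n) (h1 : Approx p g z n) (h2 : Approx p h z n) :
    aeval z (Res g h) = 0 := by
  have hz := integral hg hd hn h1
  obtain ⟨w, hw⟩ := exists_conj hz
  exact (same hz hw _).1 (Res_root hd (mul_conj_one hn (pow_one' hg h1 hz hw))
    (mul_conj_one hn (pow_one' hh h2 hz hw)))

theorem totient_le {w : ℂ} {R : ℤ[X]} (hR : R ≠ 0) (hw : aeval w R = 0) (hwi : IsIntegral ℤ w)
    (k : ℤ[X]) {M : ℕ} (hM : 0 < M) (h : IsPrimitiveRoot (aeval w k) M) :
    M.totient ≤ R.natDegree := by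
  have hwQ : IsIntegral ℚ w := hwi.tower_top
  let K : IntermediateField ℚ ℂ := IntermediateField.adjoin ℚ {w}
  have : FiniteDimensional ℚ K := IntermediateField.adjoin.finiteDimensional hwQ
  let γ : K := IntermediateField.AdjoinSimple.gen ℚ w
  have hγ : (γ : ℂ) = w := IntermediateField.AdjoinSimple.coe_gen ℚ w
  have hcoe : (algebraMap K ℂ) (aeval γ k) = aeval w k := by
    have := (Polynomial.aeval_algebraMap_apply ℂ γ k).symm
    rw [← hγ]
    exact this
  have hp : IsPrimitiveRoot (aeval γ k) M := by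
    rw [← hcoe] at h
    exact h.of_map_of_injective (algebraMap K ℂ).injective
  have h1 : (minpoly ℚ (aeval γ k)).natDegree = M.totient := by
    rw [← cyclotomic_eq_minpoly_rat hp hM, natDegree_cyclotomic]
  have h2 : (minpoly ℚ (aeval γ k)).natDegree ≤ Module.finrank ℚ K := minpoly.natDegree_le _
  have h3 : Module.finrank ℚ K = (minpoly ℚ w).natDegree :=
    IntermediateField.adjoin.finrank hwQ
  have h4 : minpoly ℚ w ∣ R.map (algebraMap ℤ ℚ) := by
    refine minpoly.dvd ℚ w ?_
    rw [aeval_map_algebraMap]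
    exact hw
  have h5 : R.map (algebraMap ℤ ℚ) ≠ 0 :=
    (Polynomial.map_ne_zero_iff (algebraMap ℤ ℚ).injective_int).2 hR
  have h6 := natDegree_le_of_dvd h4 h5
  have h7 : (R.map (algebraMap ℤ ℚ)).natDegree ≤ R.natDegree := natDegree_map_le
  omega

/-- for the good primes the values are `± 1` -/
theorem value_good {g h k : ℤ[X]} (hg : g.Monic) (hh : h.Monic) (hk : k.Monic)
    (hd : 0 < g.natDegree) (hR : Res g h ≠ 0) {z : ℤ_[p]} {n : ℕ} (hn : 0 < n)
    (h1 : Approx p g z n) (h2 : Approx p h z n) (h3 : Approx p k z n) (h4 : p % 4 = 3)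
    (hq : ∀ q : ℕ, q.Prime → q ≠ 2 → q ≤ 2 * (g.natDegree * h.natDegree) + 1 → ¬ q ∣ p - 1) :
    aeval z k = 1 ∨ aeval z k = -1 := by
  have hz := integral hg hd hn h1
  obtain ⟨w, hw⟩ := exists_conj hz
  have hwi : IsIntegral ℤ w := ⟨minpoly ℤ z, minpoly.monic hz, hw⟩
  have e1 : (aeval z k) ^ (2 * n) = 1 := by
    have := f_pow hk h3
    rw [toP, eval_map] at this
    exact this
  have e2 := pow_one' hk h3 hz hw
  have hord : orderOf (aeval z k) = orderOf (aeval w k) := by
    rw [orderOf_eq_orderOf_iff]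
    intro m
    have := same hz hw (k ^ m - 1)
    rw [map_sub, map_sub, map_pow, map_pow, map_one, map_one, sub_eq_zero, sub_eq_zero] at this
    exact this.symm
  have hpos : 0 < orderOf (aeval w k) :=
    orderOf_pos_iff.2 (isOfFinOrder_iff_pow_eq_one.2 ⟨2 * n, by omega, e2⟩)
  have hres : aeval w (Res g h) = 0 := (same hz hw _).2 (root_res hg hh hd hn h1 h2)
  have ht := totient_le hR hres hwi k hpos (IsPrimitiveRoot.orderOf _)
  rw [← hord] at ht
  exact pm_one (2 * (g.natDegree * h.natDegree)) h4 hq (by omega : 0 < 2 * n) e1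
    (ht.trans (Res_natDegree g h))

end Pool.Agent.U188.WG
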